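import Pool.Agent.H88.AX.Exh

/-!
Asphericity of basic constructions over mirrored absolute extensors.
-/

set_option autoImplicit false

open scoped Topology

namespace Pool.Agent.H88.AX

open Pool.Agent.H75.AX Set Filter Topology

section cubes

open scoped unitInterval

/-- The boundary of a cube of dimension at least two is connected. -/
lemma isPreconnected_boundary {n : ℕ} (hn : 2 ≤ n) :
    IsPreconnected (Cube.boundary (Fin n)) := by
  have face : ∀ (i : Fin n) (c : I), IsPreconnected {y : Fin n → I | y i = c} := by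
    intro i c
    have : {y : Fin n → I | y i = c} = (fun y => Function.update y i c) '' univ := by
      ext y
      constructor
      · intro hy
        refine ⟨y, mem_univ _, ?_⟩
        have hy' : y i = c := hy
        rw [← hy']
        exact Function.update_eq_self i y
      · rintro ⟨y, -, rfl⟩
        exact Function.update_self i c y
    rw [this]
    exact isPreconnected_univ.image _ (by fun_prop)
  have sub : ∀ (i : Fin n) (c : I), c = 0 ∨ c = 1 →
      {y : Fin n → I | y i = c} ⊆ Cube.boundary (Fin n) := by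
    intro i c hc y hy
    have hy' : y i = c := hy
    exact ⟨i, by rw [hy']; exact hc⟩
  apply isPreconnected_of_forall (0 : Fin n → I)
  rintro y ⟨i, hi | hi⟩
  · exact ⟨_, sub i 0 (Or.inl rfl), rfl, hi, face i 0⟩
  · obtain ⟨j, hj⟩ : ∃ j : Fin n, j ≠ i := by
      haveI : Nontrivial (Fin n) := Fin.nontrivial_iff_two_le.2 hn
      exact exists_ne i
    refine ⟨{y | y i = 1} ∪ {y | y j = 0}, union_subset (sub i 1 (Or.inr rfl))
      (sub j 0 (Or.inl rfl)), Or.inr rfl, Or.inl hi, ?_⟩
    refine IsPreconnected.union (Function.update (0 : Fin n → I) i 1) ?_ ?_ (face i 1) (face j 0)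
    · exact Function.update_self i 1 _
    · show Function.update (0 : Fin n → I) i 1 j = 0
      rw [Function.update_of_ne hj]; rfl

section

variable {E X : Type} [TopologicalSpace E] [TopologicalSpace X]

/-- Lifting maps from cubes. -/
lemma exists_lift {p : E → X} (cov : IsCoveringMap p) (hp : Function.Surjective p) {n : ℕ}
    (f : C(Fin n → I, X)) : ∃ F : C(Fin n → I, E), ∀ y, p (F y) = f y := by
  have h01 : (0 : ℝ) ≤ 1 := zero_le_one
  let r : C(Fin n → ℝ, Fin n → I) := ⟨fun y i => projIcc 0 1 h01 (y i), by fun_prop⟩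
  let j : C(Fin n → I, Fin n → ℝ) := ⟨fun y i => (y i : ℝ), by fun_prop⟩
  have hrj : ∀ y, r (j y) = y := by
    intro y
    funext i
    exact projIcc_val h01 (y i)
  obtain ⟨e₀, he₀⟩ := hp (f (r 0))
  obtain ⟨G, ⟨-, hG⟩, -⟩ := cov.existsUnique_continuousMap_lifts (f.comp r) 0 e₀ he₀
  refine ⟨G.comp j, fun y => ?_⟩
  have := congrFun hG (j y)
  simp only [Function.comp] at this
  show p (G (j y)) = f y
  rw [this]
  show f (r (j y)) = f y
  rw [hrj]

/-- Contracting a cube in an absolute extensor, rel boundary. -/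
lemma contract {U : Set E} (hU : AE U) {n : ℕ} {F : C(Fin n → I, E)} {e : E} (he : e ∈ U)
    (hF : ∀ y, F y ∈ U) (hb : ∀ y ∈ Cube.boundary (Fin n), F y = e) :
    ∃ H : I × (Fin n → I) → E, Continuous H ∧ (∀ y, H (0, y) = F y) ∧ (∀ y, H (1, y) = e) ∧
      ∀ t, ∀ y ∈ Cube.boundary (Fin n), H (t, y) = e := by
  classical
  have hbc : IsClosed (Cube.boundary (Fin n)) := by
    have : Cube.boundary (Fin n) = ⋃ i, ({y : Fin n → I | y i = 0} ∪ {y | y i = 1}) := by
      ext y
      simp [Cube.boundary]
    rw [this]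
    apply isClosed_iUnion_of_finite
    intro i
    exact (isClosed_eq (by fun_prop) continuous_const).union
      (isClosed_eq (by fun_prop) continuous_const)
  set A0 : Set (I × (Fin n → I)) := {q | q.1 = 0} with hA0
  set A1 : Set (I × (Fin n → I)) := {q | q.1 = 1 ∨ q.2 ∈ Cube.boundary (Fin n)} with hA1
  have c0 : IsClosed A0 := isClosed_eq continuous_fst continuous_const
  have c1 : IsClosed A1 :=
    (isClosed_eq continuous_fst continuous_const).union (hbc.preimage continuous_snd)
  set f : I × (Fin n → I) → E := fun q => if q.1 = 0 then F q.2 else e with hf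
  have e0 : EqOn f (fun q => F q.2) A0 := fun q hq => if_pos hq
  have e1 : EqOn f (fun _ => e) A1 := by
    intro q hq
    by_cases h : q.1 = 0
    · have hq' : q.2 ∈ Cube.boundary (Fin n) := by
        rcases hq with h1 | h1
        · rw [h] at h1; exact absurd h1 zero_ne_one
        · exact h1
      show (if q.1 = 0 then F q.2 else e) = e
      rw [if_pos h]
      exact hb _ hq'
    · exact if_neg h
  have hc : ContinuousOn f (A0 ∪ A1) :=
    ContinuousOn.union_of_isClosed
      ((by fun_prop : Continuous (fun q : I × (Fin n → I) => F q.2)).continuousOn.congr e0)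
      (continuousOn_const.congr e1) c0 c1
  obtain ⟨H, h1, h2, h3⟩ := AE.ext (B := univ) hU (c0.union c1) hc (by
    rintro q (hq | hq)
    · rw [e0 hq]; exact hF _
    · rw [e1 hq]; exact he)
  refine ⟨H, continuousOn_univ.1 h1, ?_, ?_, ?_⟩
  · intro y
    rw [h3 (0, y) ⟨Or.inl rfl, mem_univ _⟩]
    exact e0 (show ((0 : I), y) ∈ A0 from rfl)
  · intro y
    rw [h3 (1, y) ⟨Or.inr (Or.inl rfl), mem_univ _⟩]
    exact e1 (show ((1 : I), y) ∈ A1 from Or.inl rfl)
  · intro t y hy
    rw [h3 (t, y) ⟨Or.inr (Or.inr hy), mem_univ _⟩]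
    exact e1 (show (t, y) ∈ A1 from Or.inr hy)

/-- A space covered by a space exhausted by absolute extensors is aspherical. -/
theorem subsingleton_pi {p : E → X} (cov : IsCoveringMap p) (hp : Function.Surjective p)
    (hex : ∀ C : Set E, IsCompact C → ∃ U : Set E, C ⊆ U ∧ AE U) {n : ℕ} (hn : 2 ≤ n) (x : X) :
    Subsingleton (HomotopyGroup.Pi n X x) := by
  have key : ∀ f : GenLoop (Fin n) X x, GenLoop.Homotopic f GenLoop.const := by
    intro f
    obtain ⟨F, hF⟩ := exists_lift cov hp f.1
    haveI : DiscreteTopology (p ⁻¹' {x}) := (cov x).1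
    have hfb : ∀ y ∈ Cube.boundary (Fin n), F y ∈ p ⁻¹' {x} := fun y hy => by
      show p (F y) = x
      rw [hF y]; exact f.2 y hy
    have h0 : (0 : Fin n → I) ∈ Cube.boundary (Fin n) := ⟨⟨0, by omega⟩, Or.inl rfl⟩
    have hb : ∀ y ∈ Cube.boundary (Fin n), F y = F 0 := fun y hy =>
      (isPreconnected_boundary hn).constant_of_mapsTo
        (show IsDiscrete (p ⁻¹' {x}) from ⟨inferInstance⟩) F.continuous.continuousOn hfb hy h0
    obtain ⟨U, hU, hUae⟩ := hex (range F) (isCompact_range F.continuous)
    obtain ⟨H, h1, h2, h3, h4⟩ := contract (U := U) hUae (F := F) (e := F 0) (hU ⟨0, rfl⟩)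
      (fun y => hU ⟨y, rfl⟩) hb
    have hpc : Continuous p := cov.continuous
    have hx0 : p (F 0) = x := hfb 0 h0
    exact ⟨{ toFun := fun q => p (H q)
             continuous_toFun := hpc.comp h1
             map_zero_left := fun y => by
               show p (H (0, y)) = f.1 y
               rw [h2, hF y]
             map_one_left := fun y => by
               show p (H (1, y)) = x
               rw [h3, hx0]
             prop' := fun t y hy => by
               show p (H (t, y)) = f.1 y
               rw [h4 t y hy, hx0]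
               exact (f.2 y hy).symm }⟩
  constructor
  intro a b
  induction a using Quotient.inductionOn with
  | _ f =>
    induction b using Quotient.inductionOn with
    | _ f' => exact Quotient.sound ((key f).trans (key f').symm)

end

end cubes

/-- **J3** -/
theorem j3 (I G K X : Type) [Fintype I] [Group G] [MetricSpace K] [CompactSpace K]
    [TopologicalSpace X] (adj : I → I → Prop) (g : I → G) (F : I → Set K) (κ : G → K → X)
    (hs : ∀ i j, adj i j → adj j i) (hi : ∀ i, ¬ adj i i)
    (hg : ∀ i, g i * g i = 1) (hgc : ∀ i j, adj i j → g i * g j = g j * g i)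
    (hinj : ∀ l : List I, l.Nodup → l.Pairwise adj → (l.map g).prod = 1 → l = [])
    (hgen : Subgroup.closure (Set.range g) = ⊤)
    (hm : Mirrored adj F) (hbc : IsBC g F κ) (n : ℕ) (hn : 2 ≤ n) (x : X) :
    Subsingleton (HomotopyGroup.Pi n X x) := by
  obtain ⟨W, hW, s, len, -, h2, h3, h4, h5, h6, h7, h8, h9, h10, h11⟩ := j2_full I adj hs hi
  obtain ⟨φ, hφ⟩ := h4 G g hg hgc
  have hsurj : Function.Surjective φ := by
    rw [← MonoidHom.range_eq_top, ← top_le_iff, ← hgen, Subgroup.closure_le]
    rintro _ ⟨i, rfl⟩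
    exact ⟨s i, hφ i⟩
  have hst : ∀ k : K, ∀ w ∈ Subgroup.closure (s '' {i | k ∈ F i}), φ w = 1 → w = 1 := by
    intro k w hw h1
    have hσ : ∀ i ∈ {i | k ∈ F i}, ∀ j ∈ {i | k ∈ F i}, i ≠ j → adj i j :=
      fun i hi j hj hij => hm.adj_of_mem i j k hij hi hj
    obtain ⟨l, hl, hlσ, rfl⟩ := clique_word h2 h3 hσ hw
    have h12 : l = [] := by
      apply hinj l hl
      · exact hl.pairwise_of_forall_ne fun i hi j hj hij => hσ i (hlσ i hi) j (hlσ j hj) hij
      · rw [map_list_prod, List.map_map] at h1
        have : (φ ∘ s) = g := funext hφ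
        rwa [this] at h1
    rw [h12]; simp
  have hcov := (pr_isQuotientCoveringMap hbc hφ hsurj hm.closed hst)
  refine subsingleton_pi (IsQuotientCoveringMap.isCoveringMap _ _ hcov)
    hcov.toIsQuotientMap.surjective ?_ hn x
  intro C hC
  obtain ⟨m, hm'⟩ := compact_sub_ball hm h2 h3 h7 hC
  exact ⟨_, hm', ae_ball hm h2 h3 hs h5 h6 h7 h8 h9 h10 h11 m⟩

end Pool.Agent.H88.AX
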