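import Pool.Agent.H75.AX.AEDefs

/-!
Absolute extensors: basic lemmas.
-/

set_option autoImplicit false

open scoped Topology

namespace Pool.Agent.H88.AX

open Pool.Agent.H75.AX Set Filter

lemma AE.nonempty {Y : Type} [TopologicalSpace Y] (h : AE Y) : Nonempty Y := by
  obtain ⟨F, -, -⟩ := h Unit ∅ isClosed_empty (fun a => a.2.elim)
    (by rw [continuous_iff_continuousAt]; exact fun a => a.2.elim)
  exact ⟨F ()⟩

lemma AE.ext {Y : Type} [TopologicalSpace Y] {S : Set Y} (h : AE S) {Z : Type} [MetricSpace Z]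
    {A B : Set Z} (hA : IsClosed A) {f : Z → Y} (hf : ContinuousOn f A)
    (hm : ∀ z ∈ A, f z ∈ S) :
    ∃ F : Z → Y, ContinuousOn F B ∧ (∀ z ∈ B, F z ∈ S) ∧ ∀ z ∈ A ∩ B, F z = f z := by
  classical
  obtain ⟨F, hF, hFf⟩ := h B (Subtype.val ⁻¹' A) (hA.preimage continuous_subtype_val)
    (fun a => ⟨f a.1, hm _ a.2⟩) (by
      apply Continuous.subtype_mk
      have : (fun a : (Subtype.val ⁻¹' A : Set B) => f a.1) =
          (A.restrict f) ∘ (fun a : (Subtype.val ⁻¹' A : Set B) => (⟨a.1, a.2⟩ : A)) := rfl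
      rw [this]
      exact (continuousOn_iff_continuous_restrict.1 hf).comp (by fun_prop))
  refine ⟨fun z => if hz : z ∈ B then F ⟨z, hz⟩ else f z, ?_, ?_, ?_⟩
  · rw [continuousOn_iff_continuous_restrict]
    refine (continuous_subtype_val.comp hF).congr (fun z => ?_)
    simp [Set.restrict]
  · intro z hz
    simp only [dif_pos hz]
    exact (F ⟨z, hz⟩).2
  · intro z hz
    simp only [dif_pos hz.2]
    have := hFf ⟨⟨z, hz.2⟩, hz.1⟩
    rw [this]

lemma AE.of_ext {Y : Type} [TopologicalSpace Y] {S : Set Y} (hne : S.Nonempty)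
    (h : ∀ (Z : Type) [MetricSpace Z] (A : Set Z), IsClosed A → ∀ f : Z → Y, ContinuousOn f A →
      (∀ z ∈ A, f z ∈ S) → ∃ F : Z → Y, Continuous F ∧ (∀ z, F z ∈ S) ∧ ∀ z ∈ A, F z = f z) :
    AE S := by
  classical
  obtain ⟨y₀, hy₀⟩ := hne
  intro Z _ A hA f hf
  obtain ⟨F, hF, hFS, hFf⟩ := h Z A hA (fun z => if hz : z ∈ A then (f ⟨z, hz⟩ : Y) else y₀) (by
      rw [continuousOn_iff_continuous_restrict]
      refine (continuous_subtype_val.comp hf).congr (fun z => ?_)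
      simp [Set.restrict]) (by
      intro z hz
      simp only [dif_pos hz]
      exact (f ⟨z, hz⟩).2)
  refine ⟨fun z => ⟨F z, hFS z⟩, hF.subtype_mk _, fun a => Subtype.ext ?_⟩
  show F a = _
  rw [hFf a a.2]
  simp

theorem AE.homeo {Y Y' : Type} [TopologicalSpace Y] [TopologicalSpace Y'] (e : Y ≃ₜ Y')
    (h : AE Y) : AE Y' := by
  intro Z _ A hA f hf
  obtain ⟨F, hF, hFf⟩ := h Z A hA (e.symm ∘ f) (e.symm.continuous.comp hf)
  refine ⟨e ∘ F, e.continuous.comp hF, fun a => ?_⟩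
  show e (F a) = f a
  rw [hFf a]
  exact e.apply_symm_apply _

theorem AE.union {Y : Type} [TopologicalSpace Y] {S T : Set Y} (hS : IsClosed S)
    (hT : IsClosed T) (aS : AE S) (aT : AE T) (aST : AE ↥(S ∩ T)) : AE ↥(S ∪ T) := by
  classical
  have hSn : S.Nonempty := by
    obtain ⟨x⟩ := AE.nonempty aS
    exact ⟨x, x.2⟩
  apply AE.of_ext (hSn.mono subset_union_left)
  intro Z _ A hA f hf hfA
  set A1 : Set Z := {z | z ∈ A ∧ f z ∈ S} with hA1
  set A2 : Set Z := {z | z ∈ A ∧ f z ∈ T} with hA2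
  have c1 : IsClosed A1 := hf.preimage_isClosed_of_isClosed hA hS
  have c2 : IsClosed A2 := hf.preimage_isClosed_of_isClosed hA hT
  have hcov : A ⊆ A1 ∪ A2 := fun z hz => (hfA z hz).elim (fun h => Or.inl ⟨hz, h⟩)
    (fun h => Or.inr ⟨hz, h⟩)
  by_cases e1 : A1 = ∅
  · have hm : ∀ z ∈ A, f z ∈ T := fun z hz => by
      rcases hcov hz with h | h
      · rw [e1] at h; exact h.elim
      · exact h.2
    obtain ⟨F, h1, h2, h3⟩ := AE.ext (B := univ) aT hA hf hm
    exact ⟨F, continuousOn_univ.1 h1, fun z => Or.inr (h2 z (mem_univ _)),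
      fun z hz => h3 z ⟨hz, mem_univ _⟩⟩
  by_cases e2 : A2 = ∅
  · have hm : ∀ z ∈ A, f z ∈ S := fun z hz => by
      rcases hcov hz with h | h
      · exact h.2
      · rw [e2] at h; exact h.elim
    obtain ⟨F, h1, h2, h3⟩ := AE.ext (B := univ) aS hA hf hm
    exact ⟨F, continuousOn_univ.1 h1, fun z => Or.inl (h2 z (mem_univ _)),
      fun z hz => h3 z ⟨hz, mem_univ _⟩⟩
  have n1 : A1.Nonempty := nonempty_iff_ne_empty.2 e1
  have n2 : A2.Nonempty := nonempty_iff_ne_empty.2 e2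
  set Z1 : Set Z := {z | Metric.infDist z A1 ≤ Metric.infDist z A2} with hZ1
  set Z2 : Set Z := {z | Metric.infDist z A2 ≤ Metric.infDist z A1} with hZ2
  have z1 : IsClosed Z1 := isClosed_le (Metric.continuous_infDist_pt _) (Metric.continuous_infDist_pt _)
  have z2 : IsClosed Z2 := isClosed_le (Metric.continuous_infDist_pt _) (Metric.continuous_infDist_pt _)
  have a1 : A1 ⊆ Z1 := fun z hz => by
    show Metric.infDist z A1 ≤ Metric.infDist z A2
    rw [Metric.infDist_zero_of_mem hz]; exact Metric.infDist_nonneg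
  have a2 : A2 ⊆ Z2 := fun z hz => by
    show Metric.infDist z A2 ≤ Metric.infDist z A1
    rw [Metric.infDist_zero_of_mem hz]; exact Metric.infDist_nonneg
  have m1 : A1 ∩ Z2 ⊆ A2 := by
    rintro z ⟨h1, h2⟩
    have h3 : Metric.infDist z A2 ≤ Metric.infDist z A1 := h2
    rw [Metric.infDist_zero_of_mem h1] at h3
    exact (c2.mem_iff_infDist_zero n2).2 (le_antisymm h3 Metric.infDist_nonneg)
  have m2 : A2 ∩ Z1 ⊆ A1 := by
    rintro z ⟨h1, h2⟩
    have h3 : Metric.infDist z A1 ≤ Metric.infDist z A2 := h2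
    rw [Metric.infDist_zero_of_mem h1] at h3
    exact (c1.mem_iff_infDist_zero n1).2 (le_antisymm h3 Metric.infDist_nonneg)
  have hZ : Z1 ∪ Z2 = univ := by
    ext z
    simp only [mem_union, mem_univ, iff_true]
    exact le_total (Metric.infDist z A1) (Metric.infDist z A2)
  -- step 1
  obtain ⟨F0, f01, f02, f03⟩ := AE.ext (B := Z1 ∩ Z2) aST (A := A1 ∩ A2) (c1.inter c2)
    (hf.mono (fun z hz => hz.1.1)) (fun z hz => ⟨hz.1.2, hz.2.2⟩)
  -- step 2
  have step : ∀ (P : Set Y) (A' Z' : Set Z), IsClosed A' → AE P → A' ⊆ A → (∀ z ∈ A', f z ∈ P) →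
      (∀ z, z ∈ Z1 ∩ Z2 → F0 z ∈ P) → A' ∩ (Z1 ∩ Z2) ⊆ A1 ∩ A2 →
      ∃ F : Z → Y, ContinuousOn F Z' ∧ (∀ z ∈ Z', F z ∈ P) ∧ (∀ z ∈ A' ∩ Z', F z = f z) ∧
        ∀ z ∈ (Z1 ∩ Z2) ∩ Z', F z = F0 z := by
    intro P A' Z' cA' aP hA'A hfP hF0P hint
    have e1 : EqOn (fun z => if z ∈ A' then f z else F0 z) f A' := fun z hz => by
      show (if z ∈ A' then f z else F0 z) = f z
      rw [if_pos hz]
    have e2 : EqOn (fun z => if z ∈ A' then f z else F0 z) F0 (Z1 ∩ Z2) := fun z hz => by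
      show (if z ∈ A' then f z else F0 z) = F0 z
      by_cases h : z ∈ A'
      · rw [if_pos h]
        exact (f03 z ⟨hint ⟨h, hz⟩, hz⟩).symm
      · rw [if_neg h]
    have hc : ContinuousOn (fun z => if z ∈ A' then f z else F0 z) (A' ∪ (Z1 ∩ Z2)) :=
      ContinuousOn.union_of_isClosed ((hf.mono hA'A).congr e1) (f01.congr e2) cA' (z1.inter z2)
    obtain ⟨F, h1, h2, h3⟩ := AE.ext (B := Z') aP (cA'.union (z1.inter z2)) hc (by
      rintro z (hz | hz)
      · have h5 : (if z ∈ A' then f z else F0 z) = f z := e1 hz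
        rw [h5]; exact hfP z hz
      · have h5 : (if z ∈ A' then f z else F0 z) = F0 z := e2 hz
        rw [h5]; exact hF0P z hz)
    refine ⟨F, h1, h2, fun z hz => ?_, fun z hz => ?_⟩
    · rw [h3 z ⟨Or.inl hz.1, hz.2⟩]; exact e1 hz.1
    · rw [h3 z ⟨Or.inr hz.1, hz.2⟩]; exact e2 hz.1
  obtain ⟨F1, p1, p2, p3, p4⟩ := step S A1 Z1 c1 aS (fun z hz => hz.1) (fun z hz => hz.2)
    (fun z hz => (f02 z hz).1) (fun z hz => ⟨hz.1, m1 ⟨hz.1, hz.2.2⟩⟩)
  obtain ⟨F2, q1, q2, q3, q4⟩ := step T A2 Z2 c2 aT (fun z hz => hz.1) (fun z hz => hz.2)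
    (fun z hz => (f02 z hz).2) (fun z hz => ⟨m2 ⟨hz.1, hz.2.1⟩, hz.1⟩)
  have g1 : EqOn (fun z => if z ∈ Z1 then F1 z else F2 z) F1 Z1 := fun z hz => by
    show (if z ∈ Z1 then F1 z else F2 z) = F1 z
    rw [if_pos hz]
  have g2 : EqOn (fun z => if z ∈ Z1 then F1 z else F2 z) F2 Z2 := fun z hz => by
    show (if z ∈ Z1 then F1 z else F2 z) = F2 z
    by_cases h : z ∈ Z1
    · rw [if_pos h, p4 z ⟨⟨h, hz⟩, h⟩, q4 z ⟨⟨h, hz⟩, hz⟩]
    · rw [if_neg h]
  refine ⟨fun z => if z ∈ Z1 then F1 z else F2 z, ?_, ?_, ?_⟩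
  · rw [← continuousOn_univ, ← hZ]
    exact ContinuousOn.union_of_isClosed (p1.congr g1) (q1.congr g2) z1 z2
  · intro z
    have hz : z ∈ Z1 ∪ Z2 := by rw [hZ]; exact mem_univ _
    rcases hz with h | h
    · rw [g1 h]; exact Or.inl (p2 z h)
    · rw [g2 h]; exact Or.inr (q2 z h)
  · intro z hz
    rcases hcov hz with h | h
    · rw [g1 (a1 h)]; exact p3 z ⟨h, a1 h⟩
    · rw [g2 (a2 h)]; exact q3 z ⟨h, a2 h⟩

theorem AE.convex {E : Type} [NormedAddCommGroup E] [InnerProductSpace ℝ E]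
    [FiniteDimensional ℝ E] {C : Set E} (hC : Convex ℝ C) (hcl : IsClosed C)
    (hne : C.Nonempty) : AE C := by
  -- nearest point projection
  have hcomp : IsComplete C := hcl.isComplete
  have hex : ∀ u : E, ∃ v ∈ C, ∀ w ∈ C, inner ℝ (u - v) (w - v) ≤ 0 := by
    intro u
    obtain ⟨v, hv, hv'⟩ := exists_norm_eq_iInf_of_complete_convex hne hcomp hC u
    exact ⟨v, hv, (norm_eq_iInf_iff_real_inner_le_zero hC hv).1 hv'⟩
  choose P hP hP' using hex
  have hcont : Continuous P := by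
    have : LipschitzWith 1 P := by
      apply LipschitzWith.of_dist_le_mul
      intro u v
      rw [NNReal.coe_one, one_mul, dist_eq_norm, dist_eq_norm]
      have h1 := hP' u (P v) (hP v)
      have h2 := hP' v (P u) (hP u)
      have h3 : ‖P u - P v‖ ^ 2 ≤ ‖u - v‖ * ‖P u - P v‖ := by
        have h4 := real_inner_le_norm (u - v) (P u - P v)
        have h5 : inner ℝ (u - v) (P u - P v) = ‖P u - P v‖ ^ 2 -
            inner ℝ (u - P u) (P v - P u) - inner ℝ (v - P v) (P u - P v) := by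
          rw [← real_inner_self_eq_norm_sq]
          have e1 : P v - P u = -(P u - P v) := by abel
          rw [e1, inner_neg_right]
          have e2 : u - v = (P u - P v) + (u - P u) - (v - P v) := by abel
          rw [e2, inner_sub_left, inner_add_left]
          ring
        linarith
      rcases eq_or_lt_of_le (norm_nonneg (P u - P v)) with h | h
      · rw [← h]; exact norm_nonneg _
      · nlinarith
    exact this.continuous
  have hid : ∀ v ∈ C, P v = v := by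
    intro v hv
    have h1 := hP' v v hv
    rw [real_inner_self_nonpos, sub_eq_zero] at h1
    exact h1.symm
  apply AE.of_ext hne
  intro Z _ A hA f hf hfA
  obtain ⟨g, hg⟩ := ContinuousMap.exists_restrict_eq hA
    (⟨A.restrict f, continuousOn_iff_continuous_restrict.1 hf⟩ : C(A, E))
  refine ⟨fun z => P (g z), hcont.comp g.continuous, fun z => hP _, fun z hz => ?_⟩
  have : g z = f z := by
    exact congrArg (fun h : C(A, E) => h ⟨z, hz⟩) hg
  show P (g z) = f z
  rw [this]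
  exact hid _ (hfA z hz)

end Pool.Agent.H88.AX
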