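import Mathlib

/-!
Right-angled Coxeter groups: exchange, descents.
-/

set_option autoImplicit false

namespace Pool.Agent.H88.AX

open CoxeterSystem

section

variable {I : Type} [DecidableEq I] (adj : I → I → Prop) [DecidableRel adj]

/-- The right-angled Coxeter matrix of a graph. -/
def ram (hs : ∀ i j, adj i j → adj j i) : CoxeterMatrix I where
  M := Matrix.of fun i j => if i = j then 1 else if adj i j then 2 else 0
  isSymm := by
    ext i j
    simp only [Matrix.transpose_apply, Matrix.of_apply]
    by_cases h : i = j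
    · subst h; simp
    · rw [if_neg h, if_neg (Ne.symm h)]
      by_cases h' : adj i j
      · rw [if_pos h', if_pos (hs i j h')]
      · rw [if_neg h', if_neg (fun h'' => h' (hs j i h''))]
  diagonal i := by simp
  off_diagonal i j h := by
    simp only [Matrix.of_apply, if_neg h]
    split_ifs <;> norm_num

variable {adj}

lemma liftable (hs : ∀ i j, adj i j → adj j i) {G : Type} [Monoid G] {f : I → G}
    (h1 : ∀ i, f i * f i = 1) (h2 : ∀ i j, i ≠ j → adj i j → (f i * f j) ^ 2 = 1) :
    (ram adj hs).IsLiftable f := by
  intro i j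
  show (f i * f j) ^ (if i = j then 1 else if adj i j then 2 else 0) = 1
  by_cases h : i = j
  · subst h; simp [h1]
  · rw [if_neg h]
    by_cases h' : adj i j
    · rw [if_pos h']; exact h2 i j h h'
    · rw [if_neg h', pow_zero]

variable (hs : ∀ i j, adj i j → adj j i) {W : Type} [Group W]
  (cs : CoxeterSystem (ram adj hs) W)

include cs

lemma simple_comm {i j : I} (hi : ∀ i, ¬ adj i i) (h : adj i j) :
    cs.simple i * cs.simple j = cs.simple j * cs.simple i := by
  have hne : i ≠ j := fun e => hi i (by subst e; exact h)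
  have h1 := cs.simple_mul_simple_pow i j
  have h2 : (ram adj hs) i j = 2 := by
    show (if i = j then 1 else if adj i j then 2 else 0) = 2
    rw [if_neg hne, if_pos h]
  rw [h2, pow_two] at h1
  have h3 : cs.simple i * cs.simple j = (cs.simple i * cs.simple j)⁻¹ :=
    eq_inv_of_mul_eq_one_left h1
  rw [h3, mul_inv_rev, cs.inv_simple, cs.inv_simple]

lemma simple_ne {i j : I} (h : i ≠ j) : cs.simple i ≠ cs.simple j := by
  intro e
  have hl : (ram adj hs).IsLiftable
      (fun i : I => (Multiplicative.ofAdd (Pi.single i 1 : I → ZMod 2))) := by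
    apply liftable
    · intro i
      rw [← ofAdd_add, ← Pi.single_add, show (1 : ZMod 2) + 1 = 0 from rfl, Pi.single_zero]
      rfl
    · intro i j _ _
      rw [pow_two, ← ofAdd_add, ← ofAdd_add]
      have : ∀ x : I → ZMod 2, x + x = 0 := fun x => by
        funext k; exact CharTwo.add_self_eq_zero _
      rw [this]; rfl
  have h1 := congrArg (cs.lift ⟨_, hl⟩) e
  rw [cs.lift_apply_simple, cs.lift_apply_simple] at h1
  have h2 := congrFun (Multiplicative.ofAdd.injective h1) i
  rw [Pi.single_eq_same, Pi.single_eq_of_ne h] at h2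
  exact one_ne_zero h2

open Classical in
/-- The parity action of a generator. -/
noncomputable def sgen (i : I) : Function.End (W × ZMod 2) := fun p =>
  (cs.simple i * p.1 * cs.simple i, p.2 + if p.1 = cs.simple i then 1 else 0)

lemma conj_simple_iff (i : I) (t u : W) :
    cs.simple i * t * cs.simple i = u ↔ t = cs.simple i * u * cs.simple i := by
  constructor
  · rintro rfl
    simp [mul_assoc, cs.simple_mul_simple_self]
  · rintro rfl
    simp [mul_assoc, cs.simple_mul_simple_self]

lemma sgen_liftable (hi : ∀ i, ¬ adj i i) : (ram adj hs).IsLiftable (sgen hs cs) := by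
  classical
  have sq : ∀ i, sgen hs cs i * sgen hs cs i = 1 := by
    intro i
    funext p
    obtain ⟨t, ε⟩ := p
    show (cs.simple i * (cs.simple i * t * cs.simple i) * cs.simple i,
      ε + (if t = cs.simple i then 1 else 0) +
        (if cs.simple i * t * cs.simple i = cs.simple i then 1 else 0)) = (t, ε)
    have h1 : (cs.simple i * t * cs.simple i = cs.simple i) ↔ t = cs.simple i := by
      rw [conj_simple_iff hs cs]
      simp [cs.simple_mul_simple_self]
    simp only [h1]
    refine Prod.ext ?_ ?_
    · simp [mul_assoc, cs.simple_mul_simple_self]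
    · show ε + (if t = cs.simple i then (1 : ZMod 2) else 0) + (if t = cs.simple i then 1 else 0) = ε
      rw [add_assoc, CharTwo.add_self_eq_zero, add_zero]
  apply liftable hs sq
  intro i j hne hadj
  have comm : sgen hs cs i * sgen hs cs j = sgen hs cs j * sgen hs cs i := by
    funext p
    obtain ⟨t, ε⟩ := p
    show (cs.simple i * (cs.simple j * t * cs.simple j) * cs.simple i,
      ε + (if t = cs.simple j then 1 else 0) +
        (if cs.simple j * t * cs.simple j = cs.simple i then 1 else 0)) =
      (cs.simple j * (cs.simple i * t * cs.simple i) * cs.simple j,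
      ε + (if t = cs.simple i then 1 else 0) +
        (if cs.simple i * t * cs.simple i = cs.simple j then 1 else 0))
    have hc := simple_comm hs cs hi hadj
    have h1 : (cs.simple j * t * cs.simple j = cs.simple i) ↔ t = cs.simple i := by
      rw [conj_simple_iff hs cs, ← hc, mul_assoc, cs.simple_mul_simple_self, mul_one]
    have h2 : (cs.simple i * t * cs.simple i = cs.simple j) ↔ t = cs.simple j := by
      rw [conj_simple_iff hs cs, hc, mul_assoc, cs.simple_mul_simple_self, mul_one]
    simp only [h1, h2]
    refine Prod.ext ?_ ?_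
    · show cs.simple i * (cs.simple j * t * cs.simple j) * cs.simple i =
        cs.simple j * (cs.simple i * t * cs.simple i) * cs.simple j
      calc _ = (cs.simple i * cs.simple j) * t * (cs.simple j * cs.simple i) := by group
        _ = (cs.simple j * cs.simple i) * t * (cs.simple i * cs.simple j) := by rw [hc]
        _ = _ := by group
    · show ε + _ + _ = ε + _ + _
      rw [add_right_comm]
  rw [pow_two]
  calc sgen hs cs i * sgen hs cs j * (sgen hs cs i * sgen hs cs j)
      = sgen hs cs i * (sgen hs cs j * sgen hs cs i) * sgen hs cs j := by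
        simp only [mul_assoc]
    _ = sgen hs cs i * (sgen hs cs i * sgen hs cs j) * sgen hs cs j := by rw [comm]
    _ = (sgen hs cs i * sgen hs cs i) * (sgen hs cs j * sgen hs cs j) := by
        simp only [mul_assoc]
    _ = 1 := by rw [sq, sq, one_mul]

/-- The parity representation. -/
noncomputable def par (hi : ∀ i, ¬ adj i i) : W →* Function.End (W × ZMod 2) :=
  cs.lift ⟨sgen hs cs, sgen_liftable hs cs hi⟩

open Classical in
lemma par_word (hi : ∀ i, ¬ adj i i) (ω : List I) (t : W) (ε : ZMod 2) :
    par hs cs hi (cs.wordProd ω) (t, ε) =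
      (cs.wordProd ω * t * (cs.wordProd ω)⁻¹, ε + ((cs.rightInvSeq ω).count t : ℕ)) := by
  induction ω with
  | nil =>
    rw [cs.wordProd_nil, map_one]
    show (t, ε) = _
    simp
  | cons i ω ih =>
    rw [cs.wordProd_cons, map_mul]
    have h1 : par hs cs hi (cs.simple i) = sgen hs cs i := cs.lift_apply_simple _ _
    rw [h1]
    show sgen hs cs i (par hs cs hi (cs.wordProd ω) (t, ε)) = _
    rw [ih]
    show (cs.simple i * (cs.wordProd ω * t * (cs.wordProd ω)⁻¹) * cs.simple i,
      ε + ((cs.rightInvSeq ω).count t : ℕ) +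
        (if cs.wordProd ω * t * (cs.wordProd ω)⁻¹ = cs.simple i then 1 else 0)) = _
    have h2 : (cs.wordProd ω * t * (cs.wordProd ω)⁻¹ = cs.simple i) ↔
        ((cs.wordProd ω)⁻¹ * cs.simple i * cs.wordProd ω = t) := by
      constructor
      · intro h; rw [← h]; group
      · intro h; rw [← h]; group
    refine Prod.ext ?_ ?_
    · show cs.simple i * (cs.wordProd ω * t * (cs.wordProd ω)⁻¹) * cs.simple i =
        cs.simple i * cs.wordProd ω * t * (cs.simple i * cs.wordProd ω)⁻¹
      rw [mul_inv_rev, cs.inv_simple]; group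
    · show ε + ((cs.rightInvSeq ω).count t : ℕ) +
        (if cs.wordProd ω * t * (cs.wordProd ω)⁻¹ = cs.simple i then 1 else 0) =
        ε + (((cs.wordProd ω)⁻¹ * cs.simple i * cs.wordProd ω :: cs.rightInvSeq ω).count t : ℕ)
      rw [List.count_cons]
      simp only [h2, beq_iff_eq]
      push_cast
      rw [add_assoc]

/-- The parity. -/
noncomputable def eta (hi : ∀ i, ¬ adj i i) (w t : W) : ZMod 2 := (par hs cs hi w (t, 0)).2

lemma par_add (hi : ∀ i, ¬ adj i i) (w t : W) (ε : ZMod 2) :
    (par hs cs hi w (t, ε)).2 = ε + eta hs cs hi w t := by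
  classical
  obtain ⟨ω, rfl⟩ := cs.wordProd_surjective w
  rw [eta, par_word, par_word]
  simp

lemma eta_mul_simple (hi : ∀ i, ¬ adj i i) (w : W) (i : I) (t : W) [Decidable (t = cs.simple i)] :
    eta hs cs hi (w * cs.simple i) t =
      (if t = cs.simple i then 1 else 0) + eta hs cs hi w (cs.simple i * t * cs.simple i) := by
  rw [← par_add, eta, map_mul]
  have h1 : par hs cs hi (cs.simple i) = sgen hs cs i := cs.lift_apply_simple _ _
  rw [h1]
  show (par hs cs hi w (sgen hs cs i (t, 0))).2 = _
  have : sgen hs cs i (t, 0) = (cs.simple i * t * cs.simple i, if t = cs.simple i then 1 else 0) := by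
    show (cs.simple i * t * cs.simple i, (0 : ZMod 2) + _) = _
    rw [zero_add]
    congr
  rw [this]

/-- A nonzero parity gives an inversion. -/
lemma inv_of_eta (hi : ∀ i, ¬ adj i i) {w t : W} (h : eta hs cs hi w t ≠ 0) :
    cs.length (w * t) < cs.length w := by
  classical
  obtain ⟨ω, hω, rfl⟩ := cs.exists_isReduced w
  rw [eta, par_word] at h
  have hmem : t ∈ cs.rightInvSeq ω := by
    by_contra h'
    rw [List.count_eq_zero_of_not_mem h'] at h
    simp at h
  exact (cs.isRightInversion_of_mem_rightInvSeq hω hmem).2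

/-- Descents via parity. -/
lemma descent_iff (hi : ∀ i, ¬ adj i i) (w : W) (i : I) :
    cs.length (w * cs.simple i) < cs.length w ↔ eta hs cs hi w (cs.simple i) ≠ 0 := by
  classical
  constructor
  · intro h h0
    have h1 : eta hs cs hi (w * cs.simple i) (cs.simple i) ≠ 0 := by
      rw [eta_mul_simple, if_pos rfl, cs.simple_mul_simple_self, one_mul, h0, add_zero]
      exact one_ne_zero
    have h2 := inv_of_eta hs cs hi h1
    rw [mul_assoc, cs.simple_mul_simple_self, mul_one] at h2
    omega
  · exact inv_of_eta hs cs hi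

/-- The exchange property. -/
lemma exchange (hi : ∀ i, ¬ adj i i) (ω : List I) (i : I)
    (h : cs.length (cs.wordProd ω * cs.simple i) < cs.length (cs.wordProd ω)) :
    ∃ j < ω.length, cs.wordProd ω * cs.simple i = cs.wordProd (ω.eraseIdx j) := by
  classical
  rw [descent_iff hs cs hi, eta, par_word] at h
  have hmem : cs.simple i ∈ cs.rightInvSeq ω := by
    by_contra h'
    rw [List.count_eq_zero_of_not_mem h'] at h
    simp at h
  obtain ⟨j, hj, hj'⟩ := List.mem_iff_getElem.1 hmem
  refine ⟨j, by simpa using hj, ?_⟩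
  rw [← cs.wordProd_mul_getD_rightInvSeq, List.getD_eq_getElem _ 1 hj, hj']

lemma descent_comm (hi : ∀ i, ¬ adj i i) (w : W) {i j : I} (h : adj i j) :
    cs.length (w * cs.simple j * cs.simple i) < cs.length (w * cs.simple j) ↔
      cs.length (w * cs.simple i) < cs.length w := by
  classical
  have hne : i ≠ j := fun e => hi i (by subst e; exact h)
  rw [descent_iff hs cs hi, descent_iff hs cs hi, eta_mul_simple,
    if_neg (simple_ne hs cs hne), zero_add, ← simple_comm hs cs hi h, mul_assoc,
    cs.simple_mul_simple_self, mul_one]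

/-- Position in the infinite dihedral group. -/
def dpos : DihedralGroup 0 → ℤ
  | .r k => 2 * (show ℤ from k)
  | .sr k => 1 - 2 * (show ℤ from k)

omit cs in
lemma dpos_step (x : DihedralGroup 0) (c : DihedralGroup 0)
    (hc : c = 1 ∨ c = .sr 0 ∨ c = .sr 1) : |dpos (x * c)| ≤ |dpos x| + 1 := by
  have key : ∀ a b : ℤ, |b - a| ≤ 1 → |b| ≤ |a| + 1 := by
    intro a b h
    have := abs_add_le a (b - a)
    rw [show a + (b - a) = b by ring] at this
    linarith
  apply key
  rcases hc with rfl | rfl | rfl
  · simp
  · cases x with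
    | r k =>
      show |(1 - 2 * ((0 : ℤ) - (show ℤ from k))) - 2 * (show ℤ from k)| ≤ 1
      rw [abs_le]; constructor <;> omega
    | sr k =>
      show |(2 * ((0 : ℤ) - (show ℤ from k))) - (1 - 2 * (show ℤ from k))| ≤ 1
      rw [abs_le]; constructor <;> omega
  · cases x with
    | r k =>
      show |(1 - 2 * ((1 : ℤ) - (show ℤ from k))) - 2 * (show ℤ from k)| ≤ 1
      rw [abs_le]; constructor <;> omega
    | sr k =>
      show |(2 * ((1 : ℤ) - (show ℤ from k))) - (1 - 2 * (show ℤ from k))| ≤ 1
      rw [abs_le]; constructor <;> omega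

/-- The map to the dihedral group. -/
def dmap (i j : I) (k : I) : DihedralGroup 0 := if k = i then .sr 0 else if k = j then .sr 1 else 1

omit cs in
lemma dmap_cases (i j k : I) : dmap i j k = 1 ∨ dmap i j k = .sr 0 ∨ dmap i j k = .sr 1 := by
  unfold dmap
  split_ifs
  · exact Or.inr (Or.inl rfl)
  · exact Or.inr (Or.inr rfl)
  · exact Or.inl rfl

omit cs in
lemma dmap_liftable {i j : I} (hij : ¬ adj i j) :
    (ram adj hs).IsLiftable (dmap i j) := by
  have sq : ∀ k, dmap i j k * dmap i j k = 1 := by
    intro k
    rcases dmap_cases i j k with h | h | h <;> rw [h] <;> simp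
  apply liftable hs sq
  intro a b hab hadj
  have h1 : dmap i j a = 1 ∨ dmap i j b = 1 := by
    by_contra h
    push Not at h
    unfold dmap at h
    by_cases a1 : a = i
    · by_cases b1 : b = i
      · exact hab (a1.trans b1.symm)
      · by_cases b2 : b = j
        · exact hij (by rw [← a1, ← b2]; exact hadj)
        · simp [b1, b2] at h
    · by_cases a2 : a = j
      · by_cases b1 : b = i
        · exact hij (by rw [← b1, ← a2]; exact hs _ _ hadj)
        · by_cases b2 : b = j
          · exact hab (a2.trans b2.symm)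
          · simp [b1, b2] at h
      · simp [a1, a2] at h
  rcases h1 with h1 | h1
  · rw [h1, one_mul, pow_two, sq]
  · rw [h1, mul_one, pow_two, sq]

lemma dpos_word {i j : I} (hij : ¬ adj i j) (ω : List I) (x : DihedralGroup 0) :
    |dpos (x * cs.lift ⟨_, dmap_liftable hs hij⟩ (cs.wordProd ω))| ≤ |dpos x| + ω.length := by
  induction ω generalizing x with
  | nil => rw [cs.wordProd_nil, map_one, mul_one]; simp
  | cons k ω ih =>
    rw [cs.wordProd_cons, map_mul, cs.lift_apply_simple, ← mul_assoc]
    have h1 := ih (x * dmap i j k)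
    have h2 := dpos_step x (dmap i j k) (dmap_cases i j k)
    rw [List.length_cons]
    push_cast
    linarith

lemma dpos_alt {i j : I} (hne : i ≠ j) (hij : ¬ adj i j) (m : ℕ) :
    |dpos (cs.lift ⟨_, dmap_liftable hs hij⟩ (cs.wordProd (alternatingWord i j m)))| = m := by
  rw [cs.prod_alternatingWord_eq_mul_pow, map_mul, map_pow, map_mul, cs.lift_apply_simple,
    cs.lift_apply_simple]
  have h1 : dmap i j i * dmap i j j = DihedralGroup.r 1 := by
    unfold dmap
    rw [if_pos rfl, if_neg (Ne.symm hne), if_pos rfl, DihedralGroup.sr_mul_sr, sub_zero]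
  rw [h1, DihedralGroup.r_one_pow]
  by_cases hm : Even m
  · rw [if_pos hm, map_one, one_mul]
    obtain ⟨k, hk⟩ := hm
    have h2 : m / 2 = k := by omega
    rw [h2]
    show |2 * ((k : ℕ) : ℤ)| = (m : ℤ)
    rw [abs_of_nonneg (by positivity)]
    omega
  · rw [if_neg hm, cs.lift_apply_simple]
    have h3 : dmap i j j = DihedralGroup.sr 1 := by
      unfold dmap
      rw [if_neg (Ne.symm hne), if_pos rfl]
    rw [h3, DihedralGroup.sr_mul_r]
    obtain ⟨k, hk⟩ := Nat.not_even_iff_odd.1 hm
    have h2 : m / 2 = k := by omega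
    rw [h2]
    show |1 - 2 * ((1 : ℤ) + ((k : ℕ) : ℤ))| = (m : ℤ)
    rw [abs_of_nonpos (by omega)]
    omega

/-- Two non-adjacent descents give arbitrarily long alternating suffixes. -/
lemma alt_suffix (hi : ∀ i, ¬ adj i i) (w : W) (n : ℕ) : ∀ i j : I, i ≠ j → ¬ adj i j →
    cs.length (w * cs.simple i) < cs.length w → cs.length (w * cs.simple j) < cs.length w →
    ∃ v : W, w = v * cs.wordProd (alternatingWord i j n) ∧ cs.length w = cs.length v + n := by
  induction n with
  | zero =>
    intro i j _ _ _ _
    exact ⟨w, by simp [alternatingWord], rfl⟩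
  | succ n ih =>
    intro i j hne hij di dj
    obtain ⟨v, hv, hl⟩ := ih j i (Ne.symm hne) (fun h => hij (hs _ _ h)) dj di
    obtain ⟨ω, hω, rfl⟩ := cs.exists_isReduced v
    have hw : w = cs.wordProd (ω ++ alternatingWord j i n) := by rw [cs.wordProd_append]; exact hv
    have hlen : (ω ++ alternatingWord j i n).length = cs.length (cs.wordProd ω) + n := by
      rw [List.length_append, length_alternatingWord, hω.eq]
    rw [hw] at dj
    obtain ⟨k, hk, hk'⟩ := exchange hs cs hi _ _ dj
    rw [← hw] at hk'
    have hw2 : w = (w * cs.simple j) * cs.simple j := by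
      rw [mul_assoc, cs.simple_mul_simple_self, mul_one]
    by_cases hkω : k < ω.length
    · refine ⟨cs.wordProd (ω.eraseIdx k), ?_, ?_⟩
      · rw [alternatingWord_succ, cs.wordProd_concat, ← mul_assoc, ← cs.wordProd_append,
          ← List.eraseIdx_append_of_lt_length hkω, ← hk', ← hw2]
      · have h1 : w = cs.wordProd (ω.eraseIdx k) * cs.wordProd (alternatingWord i j (n + 1)) := by
          rw [alternatingWord_succ, cs.wordProd_concat, ← mul_assoc, ← cs.wordProd_append,
            ← List.eraseIdx_append_of_lt_length hkω, ← hk', ← hw2]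
        have h2 : cs.length w ≤ cs.length (cs.wordProd (ω.eraseIdx k)) + (n + 1) := by
          conv_lhs => rw [h1]
          refine (cs.length_mul_le _ _).trans ?_
          have := cs.length_wordProd_le (alternatingWord i j (n + 1))
          rw [length_alternatingWord] at this
          omega
        have h3 := cs.length_wordProd_le (ω.eraseIdx k)
        have h4 := List.length_eraseIdx_add_one hkω
        have h5 := hω.eq
        omega
    · exfalso
      rw [not_lt] at hkω
      rw [List.length_append, length_alternatingWord] at hk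
      rw [List.eraseIdx_append_of_length_le hkω, cs.wordProd_append] at hk'
      have h1 : cs.wordProd (alternatingWord i j (n + 1)) =
          cs.wordProd ((alternatingWord j i n).eraseIdx (k - ω.length)) := by
        rw [alternatingWord_succ, cs.wordProd_concat]
        have : cs.wordProd ω * (cs.wordProd (alternatingWord j i n) * cs.simple j) =
            cs.wordProd ω * cs.wordProd ((alternatingWord j i n).eraseIdx (k - ω.length)) := by
          rw [← hk', ← mul_assoc, ← hv]
        exact mul_left_cancel this
      have h2 := dpos_alt hs cs hne hij (n + 1)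
      rw [h1] at h2
      have h3 := dpos_word hs cs hij ((alternatingWord j i n).eraseIdx (k - ω.length)) 1
      rw [one_mul, h2] at h3
      have h4 : |dpos 1| = 0 := by
        show |2 * (0 : ℤ)| = 0
        simp
      rw [h4] at h3
      have h5 := List.length_eraseIdx_add_one (l := alternatingWord j i n) (i := k - ω.length)
        (by rw [length_alternatingWord]; omega)
      rw [length_alternatingWord] at h5
      push_cast at h3
      omega

lemma descent_clique (hi : ∀ i, ¬ adj i i) (w : W) {i j : I} (hne : i ≠ j)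
    (di : cs.length (w * cs.simple i) < cs.length w)
    (dj : cs.length (w * cs.simple j) < cs.length w) : adj i j := by
  by_contra hij
  obtain ⟨v, -, h⟩ := alt_suffix hs cs hi w (cs.length w + 1) i j hne hij di dj
  omega

end

/-- Right-angled Coxeter groups, with two more properties of the length. -/
theorem j2_full (I : Type) [Fintype I] (adj : I → I → Prop)
    (hs : ∀ i j, adj i j → adj j i) (hi : ∀ i, ¬ adj i i) :
    ∃ (W : Type) (_ : Group W) (s : I → W) (len : W → ℕ),
      Subgroup.closure (Set.range s) = ⊤ ∧
      (∀ i, s i * s i = 1) ∧ (∀ i j, adj i j → s i * s j = s j * s i) ∧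
      (∀ (G : Type) [Group G] (g : I → G), (∀ i, g i * g i = 1) →
        (∀ i j, adj i j → g i * g j = g j * g i) → ∃ φ : W →* G, ∀ i, φ (s i) = g i) ∧
      (len 1 = 0) ∧ (∀ n, {w | len w ≤ n}.Finite) ∧
      (∀ w i, len (w * s i) = len w + 1 ∨ len (w * s i) + 1 = len w) ∧
      (∀ w i j, i ≠ j → len (w * s i) < len w → len (w * s j) < len w → adj i j) ∧
      (∀ w i j, adj i j → (len (w * s j * s i) < len (w * s j) ↔ len (w * s i) < len w)) ∧
      (∀ w, len w = 0 → w = 1) ∧ (∀ w, w ≠ 1 → ∃ i, len (w * s i) < len w) := by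
  classical
  let cs := (ram adj hs).toCoxeterSystem
  refine ⟨(ram adj hs).Group, inferInstance, cs.simple, cs.length,
    cs.subgroup_closure_range_simple, cs.simple_mul_simple_self,
    fun i j h => simple_comm hs cs hi h, ?_, cs.length_one, ?_, cs.length_mul_simple,
    fun w i j hne di dj => descent_clique hs cs hi w hne di dj,
    fun w i j h => descent_comm hs cs hi w h, fun w h => cs.length_eq_zero_iff.1 h,
    fun w h => cs.exists_rightDescent_of_ne_one h⟩
  · intro G _ g h1 h2
    have hl : (ram adj hs).IsLiftable g := by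
      apply liftable hs h1
      intro i j _ h
      rw [pow_two]
      calc g i * g j * (g i * g j) = g i * (g j * g i) * g j := by group
        _ = g i * (g i * g j) * g j := by rw [h2 i j h]
        _ = (g i * g i) * (g j * g j) := by group
        _ = 1 := by rw [h1, h1, one_mul]
    exact ⟨cs.lift ⟨g, hl⟩, fun i => cs.lift_apply_simple hl i⟩
  · intro n
    apply ((List.finite_length_le I n).image cs.wordProd).subset
    intro w hw
    obtain ⟨ω, hω, rfl⟩ := cs.exists_isReduced w
    refine ⟨ω, ?_, rfl⟩
    show ω.length ≤ n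
    rw [← hω.eq]; exact hw

/-- **J2** -/
theorem j2 (I : Type) [Fintype I] (adj : I → I → Prop)
    (hs : ∀ i j, adj i j → adj j i) (hi : ∀ i, ¬ adj i i) :
    ∃ (W : Type) (_ : Group W) (s : I → W) (len : W → ℕ),
      Subgroup.closure (Set.range s) = ⊤ ∧
      (∀ i, s i * s i = 1) ∧ (∀ i j, adj i j → s i * s j = s j * s i) ∧
      (∀ (G : Type) [Group G] (g : I → G), (∀ i, g i * g i = 1) →
        (∀ i j, adj i j → g i * g j = g j * g i) → ∃ φ : W →* G, ∀ i, φ (s i) = g i) ∧
      (len 1 = 0) ∧ (∀ n, {w | len w ≤ n}.Finite) ∧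
      (∀ w i, len (w * s i) = len w + 1 ∨ len (w * s i) + 1 = len w) ∧
      (∀ w i j, i ≠ j → len (w * s i) < len w → len (w * s j) < len w → adj i j) ∧
      (∀ w i j, adj i j → (len (w * s j * s i) < len (w * s j) ↔ len (w * s i) < len w)) := by
  obtain ⟨W, hW, s, len, h1, h2, h3, h4, h5, h6, h7, h8, h9, -, -⟩ := j2_full I adj hs hi
  exact ⟨W, hW, s, len, h1, h2, h3, h4, h5, h6, h7, h8, h9⟩

end Pool.Agent.H88.AX
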