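import Pool.Agent.H88.AX.AELem
import Pool.Agent.H88.AX.Racg

/-!
Basic constructions.
-/

set_option autoImplicit false

open scoped Topology

namespace Pool.Agent.H88.AX

open Pool.Agent.H75.AX Set Filter Topology

section bc

variable {I G K X : Type} [Group G] [TopologicalSpace K] [TopologicalSpace X]
  {g : I → G} {F : I → Set K} {κ : G → K → X}

lemma IsBC.continuous (h : IsBC g F κ) (a : G) : Continuous (κ a) :=
  continuous_def.2 fun U hU => (h.isOpen_iff U).1 hU a

lemma IsBC.isClosed_iff (h : IsBC g F κ) (C : Set X) :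
    IsClosed C ↔ ∀ a, IsClosed (κ a ⁻¹' C) := by
  rw [← isOpen_compl_iff, h.isOpen_iff]
  simp only [preimage_compl, isOpen_compl_iff]

lemma IsBC.continuous_iff (h : IsBC g F κ) {Z : Type} [TopologicalSpace Z] (f : X → Z) :
    Continuous f ↔ ∀ a, Continuous (f ∘ κ a) := by
  constructor
  · intro hf a
    exact hf.comp (IsBC.continuous h a)
  · intro hf
    rw [continuous_def]
    intro U hU
    rw [h.isOpen_iff]
    intro a
    exact hU.preimage (hf a)

lemma IsBC.injective (h : IsBC g F κ) (a : G) : Function.Injective (κ a) := fun k l hkl =>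
  ((h.eq_iff a a k l).1 hkl).1

/-- The set of points whose stabilizer contains a given element is closed. -/
lemma closed_stab [Finite I] (hF : ∀ i, IsClosed (F i)) (x : G) :
    IsClosed {k | x ∈ Subgroup.closure (g '' {i | k ∈ F i})} := by
  have h : {k | x ∈ Subgroup.closure (g '' {i | k ∈ F i})} =
      ⋃ τ : {τ : Set I // x ∈ Subgroup.closure (g '' τ)}, ⋂ i ∈ τ.1, F i := by
    ext k
    simp only [mem_iUnion, mem_iInter, mem_ofPred_eq]
    constructor
    · intro hk
      exact ⟨⟨_, hk⟩, fun i hi => hi⟩
    · rintro ⟨⟨τ, hτ⟩, hk⟩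
      exact Subgroup.closure_mono (image_mono (fun i hi => hk i hi)) hτ
  rw [h]
  exact isClosed_iUnion_of_finite fun τ => isClosed_biInter fun i _ => hF i

lemma IsBC.isClosedMap [Finite I] (hF : ∀ i, IsClosed (F i)) (h : IsBC g F κ) (a : G) :
    IsClosedMap (κ a) := by
  intro C hC
  rw [IsBC.isClosed_iff h]
  intro b
  have : κ b ⁻¹' (κ a '' C) = C ∩ {k | b⁻¹ * a ∈ Subgroup.closure (g '' {i | k ∈ F i})} := by
    ext k
    constructor
    · rintro ⟨c, hc, hck⟩
      obtain ⟨h1, h2⟩ := (h.eq_iff b a k c).1 hck.symm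
      subst h1
      exact ⟨hc, h2⟩
    · rintro ⟨hk, hk'⟩
      exact ⟨k, hk, ((h.eq_iff b a k k).2 ⟨rfl, hk'⟩).symm⟩
  rw [this]
  exact hC.inter (closed_stab hF _)

lemma IsBC.isEmbedding [Finite I] (hF : ∀ i, IsClosed (F i)) (h : IsBC g F κ) (a : G) :
    IsEmbedding (κ a) :=
  (IsClosedEmbedding.of_continuous_injective_isClosedMap (IsBC.continuous h a)
    (IsBC.injective h a) (IsBC.isClosedMap hF h a)).isEmbedding

lemma IsBC.ae_image [Finite I] (hF : ∀ i, IsClosed (F i)) (h : IsBC g F κ) (a : G) {C : Set K}
    (hC : AE C) : AE ↥(κ a '' C) :=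
  AE.homeo ((IsBC.isEmbedding hF h a).homeomorphImage C) hC

end bc

/-- Finite unions with absolute extensor intersections. -/
lemma AE.biUnion {Y I : Type} [TopologicalSpace Y] [DecidableEq I] (D : Finset I) :
    ∀ C : I → Set Y, D.Nonempty → (∀ i ∈ D, IsClosed (C i)) →
      (∀ τ ⊆ D, τ.Nonempty → AE ↥(⋂ i ∈ τ, C i)) → AE ↥(⋃ i ∈ D, C i) := by
  induction D using Finset.induction_on with
  | empty => intro C h; exact absurd h Finset.not_nonempty_empty
  | insert j D' hj ih =>
    intro C _ hcl hae
    have hjae : AE (C j) := by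
      have := hae {j} (by simp) ⟨j, by simp⟩
      have e : (⋂ i ∈ ({j} : Finset I), C i) = C j := by simp
      rwa [e] at this
    rcases D'.eq_empty_or_nonempty with hD | hD
    · subst hD
      have e : (⋃ i ∈ (insert j ∅ : Finset I), C i) = C j := by simp
      rw [e]; exact hjae
    · have e : (⋃ i ∈ insert j D', C i) = (⋃ i ∈ D', C i) ∪ C j := by
        rw [Finset.set_biUnion_insert, union_comm]
      rw [e]
      refine AE.union ?_ (hcl j (Finset.mem_insert_self _ _)) ?_ hjae ?_
      · exact isClosed_biUnion_finset fun i hi => hcl i (Finset.mem_insert_of_mem hi)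
      · exact ih C hD (fun i hi => hcl i (Finset.mem_insert_of_mem hi))
          (fun τ hτ hne => hae τ (hτ.trans (Finset.subset_insert _ _)) hne)
      · have e2 : (⋃ i ∈ D', C i) ∩ C j = ⋃ i ∈ D', (C i ∩ C j) := by
          rw [iUnion₂_inter]
        rw [e2]
        apply ih _ hD
        · intro i hi
          exact (hcl i (Finset.mem_insert_of_mem hi)).inter (hcl j (Finset.mem_insert_self _ _))
        · intro τ hτ hne
          have := hae (insert j τ) (Finset.insert_subset_insert _ hτ) (Finset.insert_nonempty _ _)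
          have e3 : (⋂ i ∈ insert j τ, C i) = ⋂ i ∈ τ, (C i ∩ C j) := by
            rw [Finset.set_biInter_insert]
            ext y
            simp only [mem_inter_iff, mem_iInter]
            constructor
            · rintro ⟨h1, h2⟩ i hi
              exact ⟨h2 i hi, h1⟩
            · intro h
              obtain ⟨i, hi⟩ := hne
              exact ⟨(h i hi).2, fun i hi => (h i hi).1⟩
          rwa [e3] at this

section word

variable {I W : Type} [Group W] {adj : I → I → Prop} {s : I → W}

/-- Multiplication by a commuting involution. -/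
lemma prod_erase [DecidableEq I] (h2 : ∀ i, s i * s i = 1) {i : I} {l : List I}
    (hc : ∀ j ∈ l, s i * s j = s j * s i) (hil : i ∈ l) :
    (l.map s).prod = ((l.erase i).map s).prod * s i := by
  induction l with
  | nil => exact absurd hil (by simp)
  | cons a l ih =>
    by_cases ha : a = i
    · subst ha
      rw [List.erase_cons_head, List.map_cons, List.prod_cons]
      have : ∀ l' : List I, (∀ j ∈ l', s a * s j = s j * s a) →
          s a * (l'.map s).prod = (l'.map s).prod * s a := by
        intro l' hl'
        induction l' with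
        | nil => simp
        | cons b l' ih' =>
          rw [List.map_cons, List.prod_cons, ← mul_assoc, hl' b (by simp), mul_assoc,
            ih' (fun j hj => hl' j (by simp [hj])), mul_assoc]
      exact this l (fun j hj => hc j (by simp [hj]))
    · have hil' : i ∈ l := by
        rcases List.mem_cons.1 hil with h | h
        · exact absurd h.symm ha
        · exact h
      rw [List.erase_cons_tail (by simpa using ha), List.map_cons, List.prod_cons, List.map_cons,
        List.prod_cons, ih (fun j hj => hc j (by simp [hj])) hil', mul_assoc]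

lemma clique_word (h2 : ∀ i, s i * s i = 1) (h3 : ∀ i j, adj i j → s i * s j = s j * s i)
    {σ : Set I} (hσ : ∀ i ∈ σ, ∀ j ∈ σ, i ≠ j → adj i j) {h : W}
    (hh : h ∈ Subgroup.closure (s '' σ)) :
    ∃ l : List I, l.Nodup ∧ (∀ i ∈ l, i ∈ σ) ∧ h = (l.map s).prod := by
  classical
  have inv : ∀ i, (s i)⁻¹ = s i := fun i => inv_eq_of_mul_eq_one_left (h2 i)
  have step : ∀ x : W, ∀ i ∈ σ, (∃ l : List I, l.Nodup ∧ (∀ i ∈ l, i ∈ σ) ∧ x = (l.map s).prod) →
      ∃ l : List I, l.Nodup ∧ (∀ i ∈ l, i ∈ σ) ∧ x * s i = (l.map s).prod := by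
    rintro x i hi ⟨l, hl, hlσ, rfl⟩
    by_cases hil : i ∈ l
    · refine ⟨l.erase i, hl.erase i, fun j hj => hlσ j (List.mem_of_mem_erase hj), ?_⟩
      rw [prod_erase h2 (i := i) (l := l) ?_ hil, mul_assoc, h2, mul_one]
      intro j hj
      by_cases hij : i = j
      · rw [hij]
      · exact h3 i j (hσ i hi j (hlσ j hj) hij)
    · refine ⟨l ++ [i], ?_, ?_, ?_⟩
      · rw [List.nodup_append]
        refine ⟨hl, by simp, ?_⟩
        intro a ha b hb hab
        rw [List.mem_singleton] at hb
        exact hil (by rw [← hb, ← hab]; exact ha)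
      · intro j hj
        rcases List.mem_append.1 hj with h | h
        · exact hlσ j h
        · rw [List.mem_singleton] at h; rw [h]; exact hi
      · simp
  refine Subgroup.closure_induction_right (p := fun x _ => ∃ l : List I, l.Nodup ∧
    (∀ i ∈ l, i ∈ σ) ∧ x = (l.map s).prod) ?_ ?_ ?_ hh
  · exact ⟨[], by simp, by simp, by simp⟩
  · rintro x _ _ ⟨i, hi, rfl⟩ hx
    exact step x i hi hx
  · rintro x _ _ ⟨i, hi, rfl⟩ hx
    rw [inv]
    exact step x i hi hx

variable {len : W → ℕ}

lemma len_word (h7 : ∀ w i, len (w * s i) = len w + 1 ∨ len (w * s i) + 1 = len w)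
    (h9 : ∀ w i j, adj i j → (len (w * s j * s i) < len (w * s j) ↔ len (w * s i) < len w))
    (hs : ∀ i j, adj i j → adj j i)
    {σ : Set I} (hσ : ∀ i ∈ σ, ∀ j ∈ σ, i ≠ j → adj i j) {w : W}
    (hw : ∀ i ∈ σ, ¬ len (w * s i) < len w) (l : List I) (hl : l.Nodup) (hlσ : ∀ i ∈ l, i ∈ σ) :
    len (w * (l.map s).prod) = len w + l.length ∧
      ∀ j ∈ σ, j ∉ l → ¬ len (w * (l.map s).prod * s j) < len (w * (l.map s).prod) := by
  induction l using List.reverseRecOn with
  | nil =>
    simp only [List.map_nil, List.prod_nil, mul_one, List.length_nil, add_zero, true_and]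
    intro j hj _
    exact hw j hj
  | append_singleton l i ih =>
    have hl' : l.Nodup := hl.of_append_left
    have hil : i ∉ l := by
      intro h
      rw [List.nodup_append] at hl
      exact hl.2.2 i h i (by simp) rfl
    have hi : i ∈ σ := hlσ i (by simp)
    obtain ⟨e1, e2⟩ := ih hl' (fun j hj => hlσ j (by simp [hj]))
    have e3 := e2 i hi hil
    have e4 := h7 (w * (l.map s).prod) i
    have e5 : ((l ++ [i]).map s).prod = (l.map s).prod * s i := by simp
    rw [e5, ← mul_assoc]
    constructor
    · rw [List.length_append, List.length_singleton]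
      omega
    · intro j hj hjl
      have hji : j ≠ i := fun h => hjl (by simp [h])
      have hjl' : j ∉ l := fun h => hjl (by simp [h])
      have hadj := hσ j hj i hi hji
      rw [h9 _ j i hadj]
      exact e2 j hj hjl'

lemma len_le (h7 : ∀ w i, len (w * s i) = len w + 1 ∨ len (w * s i) + 1 = len w) (w : W)
    (l : List I) : len (w * (l.map s).prod) ≤ len w + l.length := by
  induction l using List.reverseRecOn with
  | nil => simp
  | append_singleton l i ih =>
    have e5 : ((l ++ [i]).map s).prod = (l.map s).prod * s i := by simp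
    rw [e5, ← mul_assoc, List.length_append, List.length_singleton]
    have := h7 (w * (l.map s).prod) i
    omega

end word

end Pool.Agent.H88.AX
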