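import Pool.Agent.H88.AX.Univ

/-!
Exhaustion of the universal basic construction by absolute extensors.
-/

set_option autoImplicit false

open scoped Topology

namespace Pool.Agent.H88.AX

open Pool.Agent.H75.AX Set Filter Topology

section exhaust

variable {I W K : Type} [Group W] [TopologicalSpace K] {s : I → W} {F : I → Set K}
  {adj : I → I → Prop} {len : W → ℕ}

/-- A union of chambers. -/
def US (s : I → W) (F : I → Set K) (S : Set W) : Set (UC s F) := ⋃ w ∈ S, range (uk w)

lemma mem_US {S : Set W} {e : UC s F} : e ∈ US s F S ↔ ∃ w ∈ S, ∃ k, uk w k = e := by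
  simp [US]

lemma isClosed_US [Finite I] (hF : ∀ i, IsClosed (F i)) {S : Set W} (hS : S.Finite) :
    IsClosed (US s F S) := by
  apply hS.isClosed_biUnion
  intro w _
  rw [← image_univ]
  exact IsBC.isClosedMap hF uc_isBC w univ isClosed_univ

variable [Fintype I] (hm : Mirrored adj F)
  (h2 : ∀ i, s i * s i = 1) (h3 : ∀ i j, adj i j → s i * s j = s j * s i)
  (hs : ∀ i j, adj i j → adj j i) (h5 : len 1 = 0)
  (h6 : ∀ n, {w | len w ≤ n}.Finite)
  (h7 : ∀ w i, len (w * s i) = len w + 1 ∨ len (w * s i) + 1 = len w)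
  (h8 : ∀ w i j, i ≠ j → len (w * s i) < len w → len (w * s j) < len w → adj i j)
  (h9 : ∀ w i j, adj i j → (len (w * s j * s i) < len (w * s j) ↔ len (w * s i) < len w))
  (h10 : ∀ w, len w = 0 → w = 1) (h11 : ∀ w, w ≠ 1 → ∃ i, len (w * s i) < len w)

include hm h2 h3 hs h7 h9 in
/-- The key inclusion. -/
lemma exists_descent {w w' : W} {k : K} (hne : w' ≠ w) (hlen : len w' ≤ len w)
    (he : (uk w k : UC s F) = uk w' k) : ∃ i, k ∈ F i ∧ len (w * s i) < len w := by
  by_contra hno
  push Not at hno
  obtain ⟨-, h⟩ := (uk_eq_iff _ _ _ _).1 he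
  have hσ : ∀ i ∈ {i | k ∈ F i}, ∀ j ∈ {i | k ∈ F i}, i ≠ j → adj i j :=
    fun i hi j hj hij => hm.adj_of_mem i j k hij hi hj
  obtain ⟨l, hl, hlσ, hh⟩ := clique_word h2 h3 hσ h
  have h1 := (len_word h7 h9 hs hσ (w := w) (fun i hi => not_lt.2 (hno i hi)) l hl hlσ).1
  rw [← hh, mul_inv_cancel_left] at h1
  have h0 : l.length = 0 := by omega
  rw [List.length_eq_zero_iff] at h0
  rw [h0] at hh
  simp only [List.map_nil, List.prod_nil] at hh
  exact hne (by rw [inv_mul_eq_one] at hh; exact hh.symm)

include hm h2 h3 hs h5 h6 h7 h8 h9 h11 in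
lemma ae_step (m : ℕ) (T : Finset W) (hT : ∀ w ∈ T, len w = m + 1)
    (hae : AE (US s F {w | len w ≤ m})) : AE ↥(US s F ({w | len w ≤ m} ∪ T)) := by
  classical
  have hF := hm.closed
  induction T using Finset.induction_on with
  | empty => rw [Finset.coe_empty, union_empty]; exact hae
  | insert w T hw ih =>
    have ih' := ih fun v hv => hT v (Finset.mem_insert_of_mem hv)
    have e1 : US s F ({v | len v ≤ m} ∪ ((insert w T : Finset W) : Set W)) =
        US s F ({v | len v ≤ m} ∪ (T : Set W)) ∪ uk w '' univ := by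
      ext e
      simp only [mem_union, mem_US, Finset.coe_insert, mem_insert_iff, image_univ, mem_range]
      constructor
      · rintro ⟨v, hv | rfl | hv, k, hk⟩
        · exact Or.inl ⟨v, Or.inl hv, k, hk⟩
        · exact Or.inr ⟨k, hk⟩
        · exact Or.inl ⟨v, Or.inr hv, k, hk⟩
      · rintro (⟨v, hv | hv, k, hk⟩ | ⟨k, hk⟩)
        · exact ⟨v, Or.inl hv, k, hk⟩
        · exact ⟨v, Or.inr (Or.inr hv), k, hk⟩
        · exact ⟨w, Or.inr (Or.inl rfl), k, hk⟩
    have hlw : len w = m + 1 := hT w (Finset.mem_insert_self _ _)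
    have hfin : ({v | len v ≤ m} ∪ (T : Set W)).Finite := (h6 m).union T.finite_toSet
    have haeK : AE ↥(univ : Set K) := by
      have := hm.ae ∅ (by simp)
      have e : (⋂ i ∈ (∅ : Finset I), F i) = univ := by simp
      rwa [e] at this
    have hwd : ∃ i, len (w * s i) < len w := by
      apply h11
      rintro rfl
      omega
    rw [e1]
    refine AE.union (isClosed_US hF hfin) (IsBC.isClosedMap hF uc_isBC w univ isClosed_univ) ih'
      (IsBC.ae_image hF uc_isBC w haeK) ?_
    set D : Finset I := Finset.univ.filter fun i => len (w * s i) < len w with hD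
    have e2 : US s F ({v | len v ≤ m} ∪ (T : Set W)) ∩ uk w '' univ = uk w '' (⋃ i ∈ D, F i) := by
      ext e
      constructor
      · rintro ⟨h1, k, -, rfl⟩
        obtain ⟨v, hv, k', hk'⟩ := mem_US.1 h1
        obtain ⟨rfl, -⟩ := (uk_eq_iff _ _ _ _).1 hk'
        have hvw : v ≠ w := by
          rintro rfl
          rcases hv with hv | hv
          · have hv' : len v ≤ m := hv
            omega
          · exact hw hv
        have hlv : len v ≤ len w := by
          rcases hv with hv | hv
          · have hv' : len v ≤ m := hv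
            omega
          · rw [hT v (Finset.mem_insert_of_mem hv), hlw]
        obtain ⟨i, hi, hi'⟩ := exists_descent hm h2 h3 hs h7 h9 hvw hlv hk'.symm
        exact ⟨k', mem_iUnion₂.2 ⟨i, by simpa [hD] using hi', hi⟩, rfl⟩
      · rintro ⟨k, hk, rfl⟩
        obtain ⟨i, hi, hik⟩ := mem_iUnion₂.1 hk
        have hi' : len (w * s i) < len w := by simpa [hD] using hi
        refine ⟨mem_US.2 ⟨w * s i, Or.inl ?_, k, ?_⟩, k, mem_univ _, rfl⟩
        · show len (w * s i) ≤ m
          have := h7 w i
          omega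
        · rw [uk_eq_iff]
          refine ⟨rfl, ?_⟩
          have e : (w * s i)⁻¹ * w = s i := by
            rw [mul_inv_rev, mul_assoc, inv_mul_cancel, mul_one]
            exact inv_eq_of_mul_eq_one_left (h2 i)
          rw [e]
          exact Subgroup.subset_closure ⟨i, hik, rfl⟩
    rw [e2]
    apply IsBC.ae_image hF uc_isBC
    apply AE.biUnion D F
    · obtain ⟨i, hi⟩ := hwd
      exact ⟨i, by simpa [hD] using hi⟩
    · exact fun i _ => hF i
    · intro τ hτ _
      apply hm.ae
      intro i hi j hj hij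
      have h1 := hτ hi
      have h1' := hτ hj
      simp only [hD, Finset.mem_filter, Finset.mem_univ, true_and] at h1 h1'
      exact h8 w i j hij h1 h1'

include hm h2 h3 hs h5 h6 h7 h8 h9 h10 h11 in
/-- The balls are absolute extensors. -/
theorem ae_ball (m : ℕ) : AE (US s F {w | len w ≤ m}) := by
  induction m with
  | zero =>
    have hF := hm.closed
    have e : US s F {w | len w ≤ 0} = uk 1 '' univ := by
      ext e
      simp only [mem_US, image_univ, mem_range, mem_ofPred_eq]
      constructor
      · rintro ⟨w, hw, k, hk⟩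
        rw [h10 w (Nat.le_zero.1 hw)] at hk
        exact ⟨k, hk⟩
      · rintro ⟨k, hk⟩
        exact ⟨1, h5.le, k, hk⟩
    rw [e]
    apply IsBC.ae_image hF uc_isBC
    have := hm.ae ∅ (by simp)
    have e : (⋂ i ∈ (∅ : Finset I), F i) = univ := by simp
    rwa [e] at this
  | succ m ih =>
    have hfin : {w | len w = m + 1}.Finite := (h6 (m + 1)).subset fun w hw => le_of_eq hw
    have := ae_step hm h2 h3 hs h5 h6 h7 h8 h9 h11 m hfin.toFinset (by simp) ih
    have e : {w | len w ≤ m} ∪ (hfin.toFinset : Set W) = {w | len w ≤ m + 1} := by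
      ext w
      simp only [mem_union, mem_ofPred_eq, Set.Finite.coe_toFinset]
      omega
    rwa [e] at this

include hm h2 h3 h7 in
/-- Every compact set lies in a ball. -/
theorem compact_sub_ball {C : Set (UC s F)} (hC : IsCompact C) :
    ∃ m, C ⊆ US s F {w | len w ≤ m} := by
  have hF := hm.closed
  obtain ⟨m, hm'⟩ := hC.elim_directed_cover (fun m : ℕ => interior (US s F {w | len w ≤ m}))
    (fun m => isOpen_interior) (by
      intro e _
      obtain ⟨w, k, rfl⟩ := uk_surj e
      refine mem_iUnion.2 ⟨len w + Fintype.card I, ?_⟩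
      rw [mem_interior]
      refine ⟨star s F w k, ?_, isOpen_star hF w k, self_mem_star w k⟩
      rintro _ ⟨x, hx, k', -, rfl⟩
      have hσ : ∀ i ∈ {i | k ∈ F i}, ∀ j ∈ {i | k ∈ F i}, i ≠ j → adj i j :=
        fun i hi j hj hij => hm.adj_of_mem i j k hij hi hj
      obtain ⟨l, hl, -, rfl⟩ := clique_word h2 h3 hσ hx
      refine mem_US.2 ⟨_, ?_, k', rfl⟩
      exact (len_le h7 w l).trans (Nat.add_le_add_left hl.length_le_card _))
    (by
      apply Monotone.directed_le
      intro a b hab
      apply interior_mono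
      intro e he
      obtain ⟨w, hw, k, hk⟩ := mem_US.1 he
      exact mem_US.2 ⟨w, le_trans hw hab, k, hk⟩)
  exact ⟨m, hm'.trans interior_subset⟩

end exhaust

end Pool.Agent.H88.AX
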