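import Pool.Agent.H88.AX.BC

/-!
The universal basic construction.
-/

set_option autoImplicit false

open scoped Topology

namespace Pool.Agent.H88.AX

open Pool.Agent.H75.AX Set Filter Topology

section

variable {I W K : Type} [Group W] (s : I → W) (F : I → Set K)

/-- The defining relation. -/
def ucSetoid : Setoid (W × K) where
  r p q := p.2 = q.2 ∧ p.1⁻¹ * q.1 ∈ Subgroup.closure (s '' {i | p.2 ∈ F i})
  iseqv := by
    refine ⟨fun p => ⟨rfl, ?_⟩, ?_, ?_⟩
    · rw [inv_mul_cancel]; exact Subgroup.one_mem _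
    · rintro ⟨w, k⟩ ⟨w', k'⟩ ⟨h1, h2⟩
      simp only at h1 h2
      subst h1
      refine ⟨rfl, ?_⟩
      have := Subgroup.inv_mem _ h2
      rwa [mul_inv_rev, inv_inv] at this
    · rintro ⟨w, k⟩ ⟨w', k'⟩ ⟨w'', k''⟩ ⟨h1, h2⟩ ⟨h3, h4⟩
      simp only at h1 h2 h3 h4
      subst h1
      subst h3
      refine ⟨rfl, ?_⟩
      have := Subgroup.mul_mem _ h2 h4
      simp only
      rwa [mul_assoc, mul_inv_cancel_left] at this

/-- The universal basic construction. -/
def UC : Type := Quotient (ucSetoid s F)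

variable {s F}

/-- The chambers. -/
def uk (w : W) (k : K) : UC s F := Quotient.mk (ucSetoid s F) (w, k)

lemma uk_eq_iff (w w' : W) (k k' : K) : (uk w k : UC s F) = uk w' k' ↔
    k = k' ∧ w⁻¹ * w' ∈ Subgroup.closure (s '' {i | k ∈ F i}) := by
  exact Quotient.eq (r := ucSetoid s F)

lemma uk_surj (e : UC s F) : ∃ w k, uk w k = e := by
  induction e using Quotient.inductionOn with
  | _ p => exact ⟨p.1, p.2, rfl⟩

variable [TopologicalSpace K]

instance : TopologicalSpace (UC s F) := ⨆ w, TopologicalSpace.coinduced (uk w) inferInstance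

lemma uc_isBC : IsBC s F (uk : W → K → UC s F) where
  surj := uk_surj
  eq_iff := uk_eq_iff
  isOpen_iff U := by
    show IsOpen[⨆ w, TopologicalSpace.coinduced (uk w) inferInstance] U ↔ _
    rw [isOpen_iSup_iff]
    simp only [isOpen_coinduced]

/-- The action of `W`. -/
instance : MulAction W (UC s F) where
  smul w := Quotient.map (fun p => (w * p.1, p.2)) (by
    rintro ⟨a, k⟩ ⟨b, l⟩ ⟨h1, h2⟩
    refine ⟨h1, ?_⟩
    simp only at h2 ⊢
    rwa [mul_inv_rev, mul_assoc, inv_mul_cancel_left])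
  one_smul e := by
    induction e using Quotient.inductionOn with
    | _ p =>
      show Quotient.mk (ucSetoid s F) (1 * p.1, p.2) = _
      rw [one_mul]
  mul_smul a b e := by
    induction e using Quotient.inductionOn with
    | _ p =>
      show Quotient.mk (ucSetoid s F) (a * b * p.1, p.2) =
        Quotient.mk (ucSetoid s F) (a * (b * p.1), p.2)
      rw [mul_assoc]

lemma smul_uk (w a : W) (k : K) : w • (uk a k : UC s F) = uk (w * a) k := rfl

end

section star

variable {I W K : Type} [Group W] [TopologicalSpace K] {s : I → W} {F : I → Set K}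

/-- The open star of a point. -/
def star (s : I → W) (F : I → Set K) (w : W) (k : K) : Set (UC s F) :=
  {e | ∃ x ∈ Subgroup.closure (s '' {i | k ∈ F i}), ∃ k' : K, (∀ i, k' ∈ F i → k ∈ F i) ∧
    e = uk (w * x) k'}

lemma self_mem_star (w : W) (k : K) : (uk w k : UC s F) ∈ star s F w k :=
  ⟨1, Subgroup.one_mem _, k, fun _ h => h, by rw [mul_one]⟩

lemma isOpen_star [Finite I] (hF : ∀ i, IsClosed (F i)) (w : W) (k : K) :
    IsOpen (star s F w k) := by
  have hO : IsOpen {k' : K | ∀ i, k' ∈ F i → k ∈ F i} := by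
    have : {k' : K | ∀ i, k' ∈ F i → k ∈ F i} = ⋂ i ∈ {i | k ∉ F i}, (F i)ᶜ := by
      ext k'
      simp only [mem_ofPred_eq, mem_iInter, mem_compl_iff]
      exact ⟨fun h i hi hi' => hi (h i hi'), fun h i hi => by_contra fun hi' => h i hi' hi⟩
    rw [this]
    exact (Set.toFinite _).isOpen_biInter fun i _ => (hF i).isOpen_compl
  rw [uc_isBC.isOpen_iff]
  intro v
  by_cases hv : w⁻¹ * v ∈ Subgroup.closure (s '' {i | k ∈ F i})
  · have : uk v ⁻¹' (star s F w k) = {k' : K | ∀ i, k' ∈ F i → k ∈ F i} := by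
      ext k'
      constructor
      · rintro ⟨x, hx, k'', h1, h2⟩
        obtain ⟨rfl, -⟩ := (uk_eq_iff _ _ _ _).1 h2
        exact h1
      · intro hk'
        exact ⟨w⁻¹ * v, hv, k', hk', by rw [mul_inv_cancel_left]⟩
    rw [this]; exact hO
  · have : uk v ⁻¹' (star s F w k) = ∅ := by
      rw [eq_empty_iff_forall_notMem]
      rintro k' ⟨x, hx, k'', h1, h2⟩
      obtain ⟨rfl, h3⟩ := (uk_eq_iff _ _ _ _).1 h2
      apply hv
      have h4 : v⁻¹ * (w * x) ∈ Subgroup.closure (s '' {i | k ∈ F i}) :=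
        Subgroup.closure_mono (image_mono (fun i hi => h1 i hi)) h3
      have h5 := Subgroup.mul_mem _ hx (Subgroup.inv_mem _ h4)
      have e : x * (v⁻¹ * (w * x))⁻¹ = w⁻¹ * v := by group
      rwa [e] at h5
    rw [this]; exact isOpen_empty

lemma star_disj {w n : W} {k : K} {e : UC s F} (h1 : e ∈ star s F w k)
    (h2 : n • e ∈ star s F w k) : w⁻¹ * n * w ∈ Subgroup.closure (s '' {i | k ∈ F i}) := by
  obtain ⟨x, hx, k', h3, rfl⟩ := h1
  obtain ⟨y, hy, k'', h4, h5⟩ := h2
  rw [smul_uk, uk_eq_iff] at h5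
  obtain ⟨rfl, h6⟩ := h5
  have h7 : (n * (w * x))⁻¹ * (w * y) ∈ Subgroup.closure (s '' {i | k ∈ F i}) :=
    Subgroup.closure_mono (image_mono (fun i hi => h3 i hi)) h6
  have h8 := Subgroup.mul_mem _ hy (Subgroup.inv_mem _ (Subgroup.mul_mem _ hx h7))
  have e : y * (x * ((n * (w * x))⁻¹ * (w * y)))⁻¹ = w⁻¹ * n * w := by group
  rwa [e] at h8

end star

section cover

variable {I W G K X : Type} [Group W] [Group G] [TopologicalSpace K] [TopologicalSpace X]
  {s : I → W} {g : I → G} {F : I → Set K} {κ : G → K → X} (h : IsBC g F κ) {φ : W →* G}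
  (hφ : ∀ i, φ (s i) = g i)

include h hφ

lemma map_closure' (σ : Set I) :
    Subgroup.map φ (Subgroup.closure (s '' σ)) = Subgroup.closure (g '' σ) := by
  rw [MonoidHom.map_closure, ← image_comp]
  congr 1
  apply image_congr
  intro i _
  exact hφ i

/-- The projection. -/
def pr : UC s F → X := Quotient.lift (fun p => κ (φ p.1) p.2) (by
  rintro ⟨a, k⟩ ⟨b, l⟩ ⟨h1, h2⟩
  simp only at h1 h2
  subst h1
  apply (h.eq_iff _ _ _ _).2
  refine ⟨rfl, ?_⟩
  rw [← map_closure' h hφ, ← map_inv, ← map_mul]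
  exact ⟨_, h2, rfl⟩)

lemma pr_uk (w : W) (k : K) : pr h hφ (uk w k) = κ (φ w) k := rfl

variable (hsurj : Function.Surjective φ)

include hsurj

lemma pr_isQuotientMap : IsQuotientMap (pr h hφ) := by
  refine ⟨.of_isOpen_preimage_iff_isOpen fun U => ?_, ?_⟩
  · rw [h.isOpen_iff, uc_isBC.isOpen_iff]
    constructor
    · intro hU a
      obtain ⟨w, rfl⟩ := hsurj a
      exact hU w
    · intro hU w
      exact hU (φ w)
  · intro x
    obtain ⟨a, k, rfl⟩ := h.surj x
    obtain ⟨w, rfl⟩ := hsurj a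
    exact ⟨uk w k, rfl⟩

lemma pr_isQuotientCoveringMap [Finite I] (hF : ∀ i, IsClosed (F i))
    (hinj : ∀ k : K, ∀ w ∈ Subgroup.closure (s '' {i | k ∈ F i}), φ w = 1 → w = 1) :
    IsQuotientCoveringMap (pr h hφ) φ.ker where
  toIsQuotientMap := pr_isQuotientMap h hφ hsurj
  continuous_const_smul n := by
    rw [IsBC.continuous_iff uc_isBC]
    intro w
    exact IsBC.continuous uc_isBC (n.1 * w)
  apply_eq_iff_mem_orbit {e₁ e₂} := by
    obtain ⟨w, k, rfl⟩ := uk_surj e₁
    obtain ⟨w', k', rfl⟩ := uk_surj e₂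
    rw [pr_uk, pr_uk, h.eq_iff]
    constructor
    · rintro ⟨rfl, h2⟩
      rw [← map_closure' h hφ, ← map_inv, ← map_mul] at h2
      obtain ⟨x, hx, hx'⟩ := h2
      refine ⟨⟨w * x * w'⁻¹, ?_⟩, ?_⟩
      · rw [MonoidHom.mem_ker, map_mul, map_mul, hx', map_mul, map_inv, map_inv]; group
      · show (w * x * w'⁻¹) • (uk w' k : UC s F) = uk w k
        rw [smul_uk]
        apply Eq.symm
        rw [uk_eq_iff]
        refine ⟨rfl, ?_⟩
        have e : w⁻¹ * (w * x * w'⁻¹ * w') = x := by group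
        rw [e]; exact hx
    · rintro ⟨n, hn⟩
      have hn' : (uk (n.1 * w') k' : UC s F) = uk w k := hn
      rw [uk_eq_iff] at hn'
      obtain ⟨h1, h2⟩ := hn'
      subst h1
      refine ⟨rfl, ?_⟩
      have h3 : φ ((n.1 * w')⁻¹ * w) = (φ w')⁻¹ * φ w := by
        rw [map_mul, map_inv, map_mul, (MonoidHom.mem_ker).1 n.2, one_mul]
      have h4 : (φ w')⁻¹ * φ w ∈ Subgroup.closure (g '' {i | k' ∈ F i}) := by
        rw [← map_closure' h hφ, ← h3]
        exact ⟨_, h2, rfl⟩
      have := Subgroup.inv_mem _ h4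
      rwa [mul_inv_rev, inv_inv] at this
  disjoint e := by
    obtain ⟨w, k, rfl⟩ := uk_surj e
    refine ⟨star s F w k, (isOpen_star hF w k).mem_nhds (self_mem_star w k), ?_⟩
    rintro n ⟨_, ⟨e, he, rfl⟩, he'⟩
    have h1 : w⁻¹ * n.1 * w ∈ Subgroup.closure (s '' {i | k ∈ F i}) := star_disj he he'
    have h2 : φ (w⁻¹ * n.1 * w) = 1 := by
      rw [map_mul, map_mul, (MonoidHom.mem_ker).1 n.2, mul_one, map_inv, inv_mul_cancel]
    have h3 := hinj k _ h1 h2
    apply Subtype.ext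
    show n.1 = 1
    have e : n.1 = w * (w⁻¹ * n.1 * w) * w⁻¹ := by group
    rw [e, h3, mul_one, mul_inv_cancel]

end cover

end Pool.Agent.H88.AX
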